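import Mathlib

/-!
# Final-subset spaces of narrow order-scattered posets are scattered

Combinatorial form: `Sm I` says that every nonempty family of final subsets of `I` has a member
which is isolated in the family (in the topology of pointwise convergence).
-/

open Set

universe u

namespace Pool.Agent.Q150.FSP

variable {P : Type u} [PartialOrder P]

/-- `F` is a final subset of `I`. -/
def Fin' (I F : Set P) : Prop := F ⊆ I ∧ ∀ x ∈ F, ∀ y ∈ I, x ≤ y → y ∈ F

/-- every nonempty family of final subsets of `I` has an isolated member -/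
def Sm (I : Set P) : Prop :=
  ∀ K : Set (Set P), K.Nonempty → (∀ F ∈ K, Fin' I F) →
    ∃ F ∈ K, ∃ S : Finset P, ∀ G ∈ K, (∀ x ∈ S, (x ∈ G ↔ x ∈ F)) → G = F

theorem Fin'.inter {I J F : Set P} (h : Fin' (I ∪ J) F) : Fin' I (F ∩ I) :=
  ⟨inter_subset_right, fun x hx y hy hxy => ⟨h.2 x hx.1 y (Or.inl hy) hxy, hy⟩⟩

theorem Fin'.inter' {I J F : Set P} (h : Fin' (I ∪ J) F) : Fin' J (F ∩ J) :=
  ⟨inter_subset_right, fun x hx y hy hxy => ⟨h.2 x hx.1 y (Or.inr hy) hxy, hy⟩⟩

theorem Sm.union {I J : Set P} (hI : Sm I) (hJ : Sm J) : Sm (I ∪ J) := by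
  classical
  intro K hK hF
  obtain ⟨A, ⟨F0, hF0, rfl⟩, S, hS⟩ := hI ((fun F => F ∩ I) '' K) (hK.image _)
    (by rintro _ ⟨F, h, rfl⟩; exact (hF F h).inter)
  obtain ⟨B, ⟨F1, hF1, rfl⟩, T, hT⟩ := hJ ((fun F => F ∩ J) '' {F ∈ K | F ∩ I = F0 ∩ I})
    (Set.Nonempty.image _ ⟨F0, hF0, rfl⟩)
    (by rintro _ ⟨F, h, rfl⟩; exact (hF F h.1).inter')
  refine ⟨F1, hF1.1, S ∪ T, ?_⟩
  intro G hG hag
  have h1 : G ∩ I = F0 ∩ I := by
    apply hS (G ∩ I) ⟨G, hG, rfl⟩
    intro x hx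
    have hx1 := hag x (Finset.mem_union_left _ hx)
    have : x ∈ F1 ∩ I ↔ x ∈ F0 ∩ I := by
      have h4 : F1 ∩ I = F0 ∩ I := hF1.2
      rw [h4]
    rw [← this]
    constructor
    · rintro ⟨a, b⟩; exact ⟨hx1.1 a, b⟩
    · rintro ⟨a, b⟩; exact ⟨hx1.2 a, b⟩
  have h2 : G ∩ J = F1 ∩ J := by
    apply hT (G ∩ J) ⟨G, ⟨hG, h1⟩, rfl⟩
    intro x hx
    have hx1 := hag x (Finset.mem_union_right _ hx)
    constructor
    · rintro ⟨a, b⟩; exact ⟨hx1.1 a, b⟩
    · rintro ⟨a, b⟩; exact ⟨hx1.2 a, b⟩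
  have e1 : G = (G ∩ I) ∪ (G ∩ J) := by
    rw [← inter_union_distrib_left]
    exact (inter_eq_left.2 (hF G hG).1).symm
  have e2 : F1 = (F1 ∩ I) ∪ (F1 ∩ J) := by
    rw [← inter_union_distrib_left]
    exact (inter_eq_left.2 (hF F1 hF1.1).1).symm
  have h3 : F1 ∩ I = F0 ∩ I := hF1.2
  rw [e1, e2, h1, h2, h3]

/-- hereditarily small sets -/
def HS (I : Set P) : Prop := ∀ J ⊆ I, Sm J

theorem HS.mono {I J : Set P} (h : HS I) (hJ : J ⊆ I) : HS J := fun L hL => h L (hL.trans hJ)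

theorem HS.union {I J : Set P} (hI : HS I) (hJ : HS J) : HS (I ∪ J) := by
  intro L hL
  have : L = (L ∩ I) ∪ (L ∩ J) := by
    rw [← inter_union_distrib_left]; exact (inter_eq_left.2 hL).symm
  rw [this]
  exact (hI _ inter_subset_right).union (hJ _ inter_subset_right)

/-- If all `J \ ↑p` are small, then so is `J`. -/
theorem HS.up {J : Set P} (h : ∀ p ∈ J, HS (J \ Ici p)) : HS J := by
  classical
  intro L hL K hK hF
  by_cases hne : ∃ F ∈ K, F.Nonempty
  · obtain ⟨F, hFK, p, hp⟩ := hne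
    have hpL : p ∈ L := (hF F hFK).1 hp
    obtain ⟨A, ⟨F0, hF0, rfl⟩, S, hS⟩ := h p (hL hpL) (L \ Ici p) (sdiff_subset_sdiff_left hL)
      ((fun F => F \ Ici p) '' {F ∈ K | p ∈ F}) (Set.Nonempty.image _ ⟨F, hFK, hp⟩)
      (by
        rintro _ ⟨G, h1, rfl⟩
        refine ⟨sdiff_subset_sdiff_left (hF G h1.1).1, fun x hx y hy hxy => ⟨?_, hy.2⟩⟩
        exact (hF G h1.1).2 x hx.1 y hy.1 hxy)
    refine ⟨F0, hF0.1, insert p S, fun G hG hag => ?_⟩
    have hpG : p ∈ G := (hag p (Finset.mem_insert_self _ _)).2 hF0.2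
    have h1 : G \ Ici p = F0 \ Ici p := by
      apply hS _ ⟨G, ⟨hG, hpG⟩, rfl⟩
      intro x hx
      have hx1 := hag x (Finset.mem_insert_of_mem hx)
      constructor
      · rintro ⟨a, b⟩; exact ⟨hx1.1 a, b⟩
      · rintro ⟨a, b⟩; exact ⟨hx1.2 a, b⟩
    have key : ∀ A B : Set P, A ∈ K → B ∈ K → p ∈ B → A \ Ici p = B \ Ici p → A ⊆ B := by
      intro A B hA hB hpB hAB x hx
      by_cases hpx : p ≤ x
      · exact (hF B hB).2 p hpB x ((hF A hA).1 hx) hpx
      · have : x ∈ A \ Ici p := ⟨hx, hpx⟩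
        rw [hAB] at this
        exact this.1
    exact Subset.antisymm (key G F0 hG hF0.1 hF0.2 h1) (key F0 G hF0.1 hG hpG h1.symm)
  · push Not at hne
    obtain ⟨F, hFK⟩ := hK
    refine ⟨F, hFK, ∅, fun G hG _ => ?_⟩
    rw [hne F hFK, hne G hG]

/-- If all `J \ ↓p` are small, then so is `J`. -/
theorem HS.down {J : Set P} (h : ∀ p ∈ J, HS (J \ Iic p)) : HS J := by
  classical
  intro L hL K hK hF
  by_cases hne : ∃ F ∈ K, ∃ p ∈ L, p ∉ F
  · obtain ⟨F, hFK, p, hpL, hp⟩ := hne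
    obtain ⟨A, ⟨F0, hF0, rfl⟩, S, hS⟩ := h p (hL hpL) (L \ Iic p) (sdiff_subset_sdiff_left hL)
      ((fun F => F \ Iic p) '' {F ∈ K | p ∉ F}) (Set.Nonempty.image _ ⟨F, hFK, hp⟩)
      (by
        rintro _ ⟨G, h1, rfl⟩
        refine ⟨sdiff_subset_sdiff_left (hF G h1.1).1, fun x hx y hy hxy => ⟨?_, hy.2⟩⟩
        exact (hF G h1.1).2 x hx.1 y hy.1 hxy)
    refine ⟨F0, hF0.1, insert p S, fun G hG hag => ?_⟩
    have hpG : p ∉ G := fun h1 => hF0.2 ((hag p (Finset.mem_insert_self _ _)).1 h1)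
    have h1 : G \ Iic p = F0 \ Iic p := by
      apply hS _ ⟨G, ⟨hG, hpG⟩, rfl⟩
      intro x hx
      have hx1 := hag x (Finset.mem_insert_of_mem hx)
      constructor
      · rintro ⟨a, b⟩; exact ⟨hx1.1 a, b⟩
      · rintro ⟨a, b⟩; exact ⟨hx1.2 a, b⟩
    have key : ∀ A B : Set P, A ∈ K → B ∈ K → p ∉ A → A \ Iic p = B \ Iic p → A ⊆ B := by
      intro A B hA hB hpA hAB x hx
      by_cases hpx : x ≤ p
      · exact absurd ((hF A hA).2 x hx p hpL hpx) hpA
      · have : x ∈ A \ Iic p := ⟨hx, hpx⟩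
        rw [hAB] at this
        exact this.1
    exact Subset.antisymm (key G F0 hG hF0.1 hpG h1) (key F0 G hF0.1 hG hF0.2 h1.symm)
  · push Not at hne
    obtain ⟨F, hFK⟩ := hK
    have hall : ∀ G ∈ K, G = L := fun G hG => Subset.antisymm (hF G hG).1 (hne G hG)
    refine ⟨F, hFK, ∅, fun G hG _ => ?_⟩
    rw [hall F hFK, hall G hG]

theorem HS.singleton (p : P) : HS ({p} : Set P) := by
  apply HS.up
  intro q hq
  have : ({p} : Set P) \ Ici q = ∅ := by
    ext x
    simp only [mem_sdiff, mem_singleton_iff, mem_Ici, mem_empty_iff_false, iff_false, not_and, not_not]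
    rintro rfl
    rw [mem_singleton_iff.1 hq]
  rw [this]
  intro L hL K hK hF
  have hL' : L = ∅ := subset_empty_iff.1 hL
  subst hL'
  obtain ⟨F, hFK⟩ := hK
  refine ⟨F, hFK, ∅, fun G hG _ => ?_⟩
  rw [subset_empty_iff.1 (hF F hFK).1, subset_empty_iff.1 (hF G hG).1]

/-- The elements incomparable to `p`. -/
def Inc (p : P) : Set P := {x | ¬ x ≤ p ∧ ¬ p ≤ x}

/-- In a non-small poset without infinite antichains there is a non-small set in which the
elements incomparable to a given element form small sets. -/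
theorem exists_reduced (hfac : ∀ A : Set P, IsAntichain (· ≤ ·) A → A.Finite) {I0 : Set P}
    (h0 : ¬ HS I0) :
    ∃ I ⊆ I0, ¬ HS I ∧ ∀ p ∈ I, HS (I ∩ Inc p) := by
  classical
  by_contra hcon
  push Not at hcon
  -- each non-small set has a smaller one incomparable to one of its elements
  have step : ∀ I : {I : Set P // I ⊆ I0 ∧ ¬ HS I}, ∃ p ∈ I.1, ¬ HS (I.1 ∩ Inc p) := by
    rintro ⟨I, hI, hs⟩
    exact hcon I hI hs
  choose p hp hs using step
  let nx : {I : Set P // I ⊆ I0 ∧ ¬ HS I} → {I : Set P // I ⊆ I0 ∧ ¬ HS I} :=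
    fun I => ⟨I.1 ∩ Inc (p I), inter_subset_left.trans I.2.1, hs I⟩
  let sq : ℕ → {I : Set P // I ⊆ I0 ∧ ¬ HS I} := fun n => nx^[n] ⟨I0, Subset.rfl, h0⟩
  have sq_succ : ∀ n, sq (n + 1) = nx (sq n) := fun n => Function.iterate_succ_apply' _ _ _
  have hmono : ∀ m n, m ≤ n → (sq n).1 ⊆ (sq m).1 := by
    intro m n hmn
    induction n, hmn using Nat.le_induction with
    | base => exact Subset.rfl
    | succ n hmn ih =>
      rw [sq_succ]
      exact inter_subset_left.trans ih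
  let q : ℕ → P := fun n => p (sq n)
  have hq : ∀ m n, m < n → q n ∈ Inc (q m) := by
    intro m n hmn
    have h1 : q n ∈ (sq n).1 := hp (sq n)
    have h2 := hmono (m + 1) n hmn h1
    rw [sq_succ] at h2
    exact h2.2
  have hinj : Function.Injective q := by
    intro m n hmn
    by_contra hne
    rcases lt_or_gt_of_ne hne with h | h
    · have := hq m n h
      rw [hmn] at this
      exact this.1 le_rfl
    · have := hq n m h
      rw [hmn] at this
      exact this.1 le_rfl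
  have hanti : IsAntichain (· ≤ ·) (range q) := by
    rintro _ ⟨m, rfl⟩ _ ⟨n, rfl⟩ hne hle
    have hmn : m ≠ n := fun h => hne (by rw [h])
    rcases lt_or_gt_of_ne hmn with h | h
    · exact (hq m n h).2 hle
    · exact (hq n m h).1 hle
  exact (Set.infinite_range_of_injective hinj) (hfac _ hanti)

/-- In a reduced non-small set every non-small subset splits. -/
theorem exists_split {I : Set P} (hI : ∀ p ∈ I, HS (I ∩ Inc p)) {J : Set P} (hJI : J ⊆ I)
    (hJ : ¬ HS J) : ∃ p ∈ J, ¬ HS (J ∩ Iio p) ∧ ¬ HS (J ∩ Ioi p) := by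
  classical
  by_contra hcon
  push Not at hcon
  apply hJ
  have e : J = {p ∈ J | HS (J ∩ Iio p)} ∪ {p ∈ J | HS (J ∩ Ioi p)} := by
    ext x
    constructor
    · intro hx
      by_cases h : HS (J ∩ Iio x)
      · exact Or.inl ⟨hx, h⟩
      · exact Or.inr ⟨hx, hcon x hx h⟩
    · rintro (h | h)
      · exact h.1
      · exact h.1
  have h1 : HS {p ∈ J | HS (J ∩ Iio p)} := by
    apply HS.up
    intro p hp
    refine HS.mono (hp.2.union (hI p (hJI hp.1))) ?_
    rintro x ⟨hx, hpx⟩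
    by_cases hxp : x ≤ p
    · left
      refine ⟨hx.1, lt_of_le_of_ne hxp ?_⟩
      rintro rfl
      exact hpx le_rfl
    · right
      exact ⟨hJI hx.1, hxp, hpx⟩
  have h2 : HS {p ∈ J | HS (J ∩ Ioi p)} := by
    apply HS.down
    intro p hp
    refine HS.mono (hp.2.union (hI p (hJI hp.1))) ?_
    rintro x ⟨hx, hpx⟩
    by_cases hxp : p ≤ x
    · left
      refine ⟨hx.1, lt_of_le_of_ne hxp ?_⟩
      rintro rfl
      exact hpx le_rfl
    · right
      exact ⟨hJI hx.1, hpx, hxp⟩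
  rw [e]
  exact h1.union h2

/-- An interpolative relation contained in `<` yields a copy of the rationals. -/
theorem exists_rat_embedding {R : P → P → Prop} (hlt : ∀ x y, R x y → x < y)
    (hint : ∀ x y, R x y → ∃ z, R x z ∧ R z y) {x0 y0 : P} (h0 : R x0 y0) :
    Nonempty (ℚ ↪o P) := by
  classical
  have hint' : ∀ x y, ∃ z, R x y → (R x z ∧ R z y) := by
    intro x y
    by_cases h : R x y
    · obtain ⟨z, hz⟩ := hint x y h
      exact ⟨z, fun _ => hz⟩
    · exact ⟨x, fun h1 => absurd h1 h⟩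
  choose mid hmid using hint'
  let f : ℕ → ℕ → P := fun n => Nat.rec (fun k => if k = 0 then x0 else y0)
    (fun _ g k => if k % 2 = 0 then g (k / 2) else mid (g (k / 2)) (g (k / 2 + 1))) n
  have f0 : ∀ k, f 0 k = if k = 0 then x0 else y0 := fun k => rfl
  have fs : ∀ n k, f (n + 1) k = if k % 2 = 0 then f n (k / 2) else
      mid (f n (k / 2)) (f n (k / 2 + 1)) := fun n k => rfl
  have hR : ∀ n k, k < 2 ^ n → R (f n k) (f n (k + 1)) := by
    intro n
    induction n with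
    | zero =>
      intro k hk
      have : k = 0 := by simpa using hk
      subst this
      simpa [f0] using h0
    | succ n ih =>
      intro k hk
      have hk2 : k / 2 < 2 ^ n := by rw [pow_succ] at hk; omega
      have h1 := hmid _ _ (ih (k / 2) hk2)
      rcases Nat.mod_two_eq_zero_or_one k with h | h
      · have e1 : (k + 1) % 2 ≠ 0 := by omega
        have e2 : (k + 1) / 2 = k / 2 := by omega
        rw [fs, fs, if_pos h, if_neg e1, e2]
        exact h1.1
      · have e1 : (k + 1) % 2 = 0 := by omega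
        have e2 : (k + 1) / 2 = k / 2 + 1 := by omega
        rw [fs, fs, if_neg (by omega : ¬ k % 2 = 0), if_pos e1, e2]
        exact h1.2
  have hmono : ∀ n j k, j < k → k ≤ 2 ^ n → f n j < f n k := by
    intro n j k hjk
    induction k, hjk using Nat.le_induction with
    | base => intro hk; exact hlt _ _ (hR n j hk)
    | succ k hjk ih =>
      intro hk
      exact (ih (by omega)).trans (hlt _ _ (hR n k (by omega)))
  have hlift : ∀ m n k, f (n + m) (2 ^ m * k) = f n k := by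
    intro m
    induction m with
    | zero => intro n k; simp
    | succ m ih =>
      intro n k
      have e : 2 ^ (m + 1) * k = 2 * (2 ^ m * k) := by ring
      rw [← add_assoc, fs, e, if_pos (by omega), Nat.mul_div_cancel_left _ (by norm_num)]
      exact ih n k
  -- the dyadic numbers in [0,1]
  let D : Set ℚ := {q | ∃ n k : ℕ, k ≤ 2 ^ n ∧ q = k / 2 ^ n}
  have hD : ∀ q : D, ∃ nk : ℕ × ℕ, nk.2 ≤ 2 ^ nk.1 ∧ q.1 = nk.2 / 2 ^ nk.1 := by
    rintro ⟨q, n, k, h1, h2⟩
    exact ⟨(n, k), h1, h2⟩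
  choose nk hnk1 hnk2 using hD
  have hst : StrictMono (fun q : D => f (nk q).1 (nk q).2) := by
    intro q q' hqq
    have h1 : (q.1 : ℚ) < q'.1 := hqq
    rw [hnk2 q, hnk2 q'] at h1
    have h2 : (((nk q).2 * 2 ^ (nk q').1 : ℕ) : ℚ) < ((nk q').2 * 2 ^ (nk q).1 : ℕ) := by
      rw [div_lt_div_iff₀ (by positivity) (by positivity)] at h1
      push_cast
      exact h1
    have h3 : (nk q).2 * 2 ^ (nk q').1 < (nk q').2 * 2 ^ (nk q).1 := by exact_mod_cast h2
    show f (nk q).1 (nk q).2 < f (nk q').1 (nk q').2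
    rw [← hlift (nk q').1 (nk q).1 (nk q).2, ← hlift (nk q).1 (nk q').1 (nk q').2,
      add_comm (nk q').1 (nk q).1]
    apply hmono
    · rw [mul_comm, mul_comm (2 ^ (nk q).1)]; exact h3
    · calc 2 ^ (nk q).1 * (nk q').2 ≤ 2 ^ (nk q).1 * 2 ^ (nk q').1 :=
            Nat.mul_le_mul_left _ (hnk1 q')
        _ = 2 ^ ((nk q).1 + (nk q').1) := by rw [pow_add]
  have hz : (0 : ℚ) ∈ D := ⟨0, 0, by norm_num, by norm_num⟩
  have ho : (1 : ℚ) ∈ D := ⟨0, 1, by norm_num, by norm_num⟩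
  have : Nontrivial D := ⟨⟨0, hz⟩, ⟨1, ho⟩, by
    intro h
    have := congrArg Subtype.val h
    norm_num at this⟩
  have : DenselyOrdered D := by
    constructor
    rintro ⟨q, n, k, hk, hq⟩ ⟨q', n', k', hk', hq'⟩ hlt'
    have hlt2 : q < q' := hlt'
    refine ⟨⟨(q + q') / 2, n + n' + 1, k * 2 ^ n' + k' * 2 ^ n, ?_, ?_⟩, ?_, ?_⟩
    · have h1 : k * 2 ^ n' ≤ 2 ^ n * 2 ^ n' := Nat.mul_le_mul_right _ hk
      have h2 : k' * 2 ^ n ≤ 2 ^ n' * 2 ^ n := Nat.mul_le_mul_right _ hk'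
      have h3 : 2 ^ (n + n' + 1) = 2 ^ n * 2 ^ n' + 2 ^ n' * 2 ^ n := by ring
      rw [h3]
      exact Nat.add_le_add h1 h2
    · rw [hq, hq']
      push_cast
      field_simp
      ring
    · show q < (q + q') / 2
      linarith
    · show (q + q') / 2 < q'
      linarith
  obtain ⟨e⟩ := Order.embedding_from_countable_to_dense ℚ D
  exact ⟨e.trans (OrderEmbedding.ofStrictMono _ hst)⟩

/-- **Theorem** (Pouzet). If `P` has no infinite antichain and does not contain the rationals,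
then all families of final subsets of `P` have isolated members. -/
theorem sm_univ (hfac : ∀ A : Set P, IsAntichain (· ≤ ·) A → A.Finite) (hsc : IsEmpty (ℚ ↪o P)) :
    HS (univ : Set P) := by
  classical
  by_contra hcon
  obtain ⟨I, -, hI, hinc⟩ := exists_reduced hfac hcon
  obtain ⟨x0, hx0, -, h1⟩ := exists_split hinc Subset.rfl hI
  obtain ⟨y0, hy0, h2, -⟩ := exists_split hinc inter_subset_left h1
  have key := exists_rat_embedding (R := fun x y => x < y ∧ ¬ HS (I ∩ Ioi x ∩ Iio y))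
    (fun x y h => h.1) (by
      rintro x y ⟨hxy, h⟩
      obtain ⟨z, hz, h3, h4⟩ := exists_split hinc (inter_subset_left.trans inter_subset_left) h
      refine ⟨z, ⟨hz.1.2, fun h5 => h3 (h5.mono ?_)⟩, ⟨hz.2, fun h5 => h4 (h5.mono ?_)⟩⟩
      · rintro w ⟨⟨⟨a, b⟩, c⟩, d⟩
        exact ⟨⟨a, b⟩, d⟩
      · rintro w ⟨⟨⟨a, b⟩, c⟩, d⟩
        exact ⟨⟨a, d⟩, c⟩)
    (x0 := x0) (y0 := y0) ⟨hy0.2, h2⟩
  exact hsc.elim key.some

end Pool.Agent.Q150.FSP
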