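import Pool.Agent.Q150.FSP.Scat
import Pool.Agent.Helper718.CWG.Core

/-!
# Final-subset spaces of narrow order-scattered posets are canonically Skula
-/

open Set Topology

universe u

namespace Pool.Agent.Q150.FSP

/-! ## Definitions -/

/-- The set of final subsets of `P`, as a subset of `{0,1}^P` (which carries the product
topology). -/
def FS (P : Type u) [PartialOrder P] : Set (P → Bool) :=
  {F | ∀ x y, x ≤ y → F x = true → F y = true}

/-- The isolated points of the subspace `A`. -/
def Isol {X : Type u} [TopologicalSpace X] (A : Set X) : Set X :=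
  {x | ∃ V : Set X, IsOpen V ∧ V ∩ A = {x}}

/-- The Cantor-Bendixson derivatives: `X^[0] = X` and
`X^[α] = ⋂ β < α, (the non-isolated points of X^[β])` for `α > 0`. -/
noncomputable def cb (X : Type u) [TopologicalSpace X] (α : Ordinal.{u}) : Set X :=
  {x | ∀ β, β < α → x ∈ cb X β \ Isol (cb X β)}
termination_by α

/-- A canonical clopen selector. -/
structure IsCanonicalSelector {X : Type u} [TopologicalSpace X] (U : X → Set X) : Prop where
  clopen : ∀ x, IsClopen (U x)
  mem : ∀ x, x ∈ U x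
  trans : ∀ x y, y ∈ U x → U y ⊆ U x
  anti : ∀ x y, y ∈ U x → y ≠ x → x ∉ U y
  unitary : ∀ x, ∃ α : Ordinal.{u}, Subtype.val '' cb (U x) α = {x}

/-! ## Cantor-Bendixson derivatives -/

section CB
variable {X : Type u} [TopologicalSpace X]

theorem mem_cb {α : Ordinal.{u}} {x : X} :
    x ∈ cb X α ↔ ∀ β, β < α → x ∈ cb X β \ Isol (cb X β) := by
  rw [cb]; rfl

theorem cb_anti {α β : Ordinal.{u}} (h : α ≤ β) : cb X β ⊆ cb X α := by
  intro x hx
  rw [mem_cb] at hx ⊢
  exact fun γ hγ => hx γ (hγ.trans_le h)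

/-- Derivatives of open subspaces. -/
theorem cb_open (U : Set X) (hU : IsOpen U) (α : Ordinal.{u}) :
    Subtype.val '' cb U α = U ∩ cb X α := by
  induction α using WellFoundedLT.induction with
  | ind α ih =>
    have hiso : ∀ β < α, ∀ x (hx : x ∈ U), ((⟨x, hx⟩ : U) ∈ cb U β ↔ x ∈ cb X β) ∧
        ((⟨x, hx⟩ : U) ∈ Isol (cb U β) ↔ x ∈ Isol (cb X β)) := by
      intro β hβ x hx
      have h1 := ih β hβ
      have hmem : ∀ y (hy : y ∈ U), ((⟨y, hy⟩ : U) ∈ cb U β ↔ y ∈ cb X β) := by
        intro y hy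
        constructor
        · intro h
          have : y ∈ U ∩ cb X β := by rw [← h1]; exact ⟨_, h, rfl⟩
          exact this.2
        · intro h
          have : y ∈ Subtype.val '' cb U β := by rw [h1]; exact ⟨hy, h⟩
          obtain ⟨z, hz, rfl⟩ := this
          exact hz
      refine ⟨hmem x hx, ?_, ?_⟩
      · rintro ⟨V, hV, hV2⟩
        obtain ⟨W, hW, rfl⟩ := isOpen_induced_iff.1 hV
        refine ⟨W ∩ U, hW.inter hU, ?_⟩
        ext y
        constructor
        · rintro ⟨⟨h2, h3⟩, h4⟩
          have h5 : (⟨y, h3⟩ : U) ∈ Subtype.val ⁻¹' W ∩ cb U β := ⟨h2, (hmem y h3).2 h4⟩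
          rw [hV2] at h5
          exact congrArg Subtype.val (mem_singleton_iff.1 h5)
        · intro h2
          have h2 := mem_singleton_iff.1 h2
          subst h2
          have h5 : (⟨y, hx⟩ : U) ∈ Subtype.val ⁻¹' W ∩ cb U β := by rw [hV2]; rfl
          exact ⟨⟨h5.1, hx⟩, (hmem y hx).1 h5.2⟩
      · rintro ⟨V, hV, hV2⟩
        refine ⟨Subtype.val ⁻¹' V, hV.preimage continuous_subtype_val, ?_⟩
        ext ⟨y, hy⟩
        constructor
        · rintro ⟨h2, h3⟩
          have h5 : y ∈ V ∩ cb X β := ⟨h2, (hmem y hy).1 h3⟩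
          rw [hV2] at h5
          exact Subtype.ext (mem_singleton_iff.1 h5)
        · intro h2
          have h2 : y = x := congrArg Subtype.val (mem_singleton_iff.1 h2)
          subst h2
          have h5 : y ∈ V ∩ cb X β := by rw [hV2]; rfl
          exact ⟨h5.1, (hmem y hy).2 h5.2⟩
    ext x
    constructor
    · rintro ⟨⟨y, hy⟩, h, rfl⟩
      refine ⟨hy, mem_cb.2 fun β hβ => ?_⟩
      have h1 := mem_cb.1 h β hβ
      obtain ⟨h2, h3⟩ := hiso β hβ y hy
      exact ⟨h2.1 h1.1, fun h4 => h1.2 (h3.2 h4)⟩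
    · rintro ⟨hx, h⟩
      refine ⟨⟨x, hx⟩, mem_cb.2 fun β hβ => ?_, rfl⟩
      have h1 := mem_cb.1 h β hβ
      obtain ⟨h2, h3⟩ := hiso β hβ x hx
      exact ⟨h2.2 h1.1, fun h4 => h1.2 (h3.1 h4)⟩

/-- In a scattered space every point is isolated in exactly one derivative. -/
theorem exists_rank (hsc : ∀ K : Set X, K.Nonempty → ∃ x ∈ K, x ∈ Isol K) (x : X) :
    ∃ β : Ordinal.{u}, x ∈ cb X β ∧ x ∈ Isol (cb X β) := by
  classical
  -- some derivative does not contain `x`
  have hout : ∃ α : Ordinal.{u}, x ∉ cb X α := by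
    by_contra hcon
    push Not at hcon
    have hlt : ∀ α β : Ordinal.{u}, α < β → cb X α ≠ cb X β := by
      intro α β hαβ he
      obtain ⟨y, hy, hiso⟩ := hsc (cb X α) ⟨x, hcon α⟩
      have : y ∈ cb X β := he ▸ hy
      exact (mem_cb.1 this α hαβ).2 hiso
    refine not_injective_of_ordinal (fun α : Ordinal.{u} => cb X α) ?_
    intro α β h
    by_contra hne
    rcases lt_or_gt_of_ne hne with h1 | h1
    · exact hlt α β h1 h
    · exact hlt β α h1 h.symm
  have hmin := WellFounded.min_mem (Ordinal.lt_wf) {α : Ordinal.{u} | x ∉ cb X α} hout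
  set α := WellFounded.min (Ordinal.lt_wf) {α : Ordinal.{u} | x ∉ cb X α} hout with hα
  have hlow : ∀ β < α, x ∈ cb X β := by
    intro β hβ
    by_contra h
    exact WellFounded.not_lt_min (Ordinal.lt_wf) {α : Ordinal.{u} | x ∉ cb X α} h hβ
  have h1 : ¬ ∀ β, β < α → x ∈ cb X β \ Isol (cb X β) := fun h => hmin (mem_cb.2 h)
  push Not at h1
  obtain ⟨β, hβ, h2⟩ := h1
  refine ⟨β, hlow β hβ, ?_⟩
  by_contra h3
  exact h2 ⟨hlow β hβ, h3⟩

end CB

/-! ## The rank on final subsets -/

section Main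
variable {P : Type u} [PartialOrder P]

open Pool.Agent.Helper718.CWG

/-- reverse order; its initial segments are the final subsets -/
def ge' (x y : P) : Prop := y ≤ x

open Classical in
/-- the point of `FS P` given by a set -/
noncomputable def pt (D : Set P) (h : Low ge' D) : FS P :=
  ⟨fun x => decide (x ∈ D), fun x y hxy hx => by
    have h1 : x ∈ D := by simpa using hx
    have h2 : y ∈ D := h (x := y) (y := x) hxy h1
    simpa using h2⟩

/-- the set given by a point -/
def st (F : FS P) : Set P := {x | F.1 x = true}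

theorem low_st (F : FS P) : Low ge' (st F) := fun x y h hy => F.2 y x h hy

theorem st_pt (D : Set P) (h : Low ge' D) : st (pt D h) = D := by
  ext x
  simp [st, pt]

theorem st_inj {F G : FS P} (h : st F = st G) : F = G := by
  apply Subtype.ext
  funext x
  have : x ∈ st F ↔ x ∈ st G := by rw [h]
  simp only [st, mem_ofPred_eq] at this
  exact Bool.eq_iff_iff.2 this

theorem pt_st (F : FS P) : pt (st F) (low_st F) = F := st_inj (st_pt _ _)

/-- The sets of points with prescribed finitely many coordinates are open. -/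
theorem isOpen_agree (S : Finset P) (F : FS P) :
    IsOpen {G : FS P | ∀ x ∈ S, (x ∈ st G ↔ x ∈ st F)} := by
  classical
  have : {G : FS P | ∀ x ∈ S, (x ∈ st G ↔ x ∈ st F)} =
      ⋂ x ∈ S, {G : FS P | G.1 x = F.1 x} := by
    ext G
    simp only [mem_ofPred_eq, mem_iInter, st]
    exact forall₂_congr fun x _ => Bool.eq_iff_iff.symm
  rw [this]
  refine isOpen_biInter_finset fun x _ => ?_
  have hc : Continuous (fun G : FS P => G.1 x) := (continuous_apply x).comp continuous_subtype_val
  exact (isOpen_discrete {F.1 x}).preimage hc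

theorem exists_agree {V : Set (FS P)} (hV : IsOpen V) {F : FS P} (hF : F ∈ V) :
    ∃ S : Finset P, ∀ G : FS P, (∀ x ∈ S, (x ∈ st G ↔ x ∈ st F)) → G ∈ V := by
  classical
  obtain ⟨W, hW, rfl⟩ := isOpen_induced_iff.1 hV
  obtain ⟨S, u, hu, hsub⟩ := isOpen_pi_iff.1 hW F.1 hF
  refine ⟨S, fun G hG => hsub ?_⟩
  intro x hx
  have h1 := hG x hx
  have h2 : G.1 x = F.1 x := by
    rw [Bool.eq_iff_iff]; exact h1
  rw [h2]
  exact (hu x hx).2

theorem mem_isol_iff {K : Set (FS P)} {F : FS P} (hF : F ∈ K) :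
    F ∈ Isol K ↔ ∃ S : Finset P, ∀ G ∈ K, (∀ x ∈ S, (x ∈ st G ↔ x ∈ st F)) → G = F := by
  constructor
  · rintro ⟨V, hV, hV2⟩
    have hFV : F ∈ V := by
      have : F ∈ V ∩ K := by rw [hV2]; rfl
      exact this.1
    obtain ⟨S, hS⟩ := exists_agree hV hFV
    refine ⟨S, fun G hG h => ?_⟩
    have : G ∈ V ∩ K := ⟨hS G h, hG⟩
    rw [hV2] at this
    exact this
  · rintro ⟨S, hS⟩
    refine ⟨_, isOpen_agree S F, ?_⟩
    ext G
    constructor
    · rintro ⟨h1, h2⟩
      exact hS G h2 h1
    · rintro rfl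
      exact ⟨fun x _ => Iff.rfl, hF⟩

theorem scattered (hsm : Sm (univ : Set P)) (K : Set (FS P)) (hK : K.Nonempty) :
    ∃ F ∈ K, F ∈ Isol K := by
  classical
  obtain ⟨A, ⟨F, hF, rfl⟩, S, hS⟩ := hsm (st '' K) (hK.image _) (by
    rintro _ ⟨F, -, rfl⟩
    exact ⟨subset_univ _, fun x hx y _ hxy => F.2 x y hxy hx⟩)
  refine ⟨F, hF, (mem_isol_iff hF).2 ⟨S, fun G hG h => ?_⟩⟩
  exact st_inj (hS (st G) ⟨G, hG, rfl⟩ h)

/-- **Theorem.** `FS P` has a canonical clopen selector when all antichains of `P` are finite and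
`FS P` is scattered. -/
theorem canonical (hfac : ∀ A : Set P, IsAntichain (· ≤ ·) A → A.Finite)
    (hsm : Sm (univ : Set P)) :
    ∃ U : FS P → Set (FS P), IsCanonicalSelector U := by
  classical
  have hrk := fun x : FS P => exists_rank (scattered hsm) x
  choose ht ht1 ht2 using hrk
  have hmem : ∀ (x : FS P) (α : Ordinal.{u}), x ∈ cb (FS P) α ↔ α ≤ ht x := by
    intro x α
    constructor
    · intro h
      by_contra hcon
      exact (mem_cb.1 h (ht x) (not_le.1 hcon)).2 (ht2 x)
    · intro h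
      exact cb_anti h (ht1 x)
  let r : Set P → Ordinal.{u} := fun D => if h : Low ge' D then ht (pt D h) else 0
  have hr : ∀ F : FS P, r (st F) = ht F := by
    intro F
    simp only [r, dif_pos (low_st F), pt_st]
  have hIR : IsRank (ge' (P := P)) r := by
    constructor
    · intro D hD
      have hD' : D = st (pt D hD) := (st_pt D hD).symm
      obtain ⟨S, hS⟩ := (mem_isol_iff (ht1 (pt D hD))).1 (ht2 (pt D hD))
      refine ⟨S, fun G hG h1 h2 => ?_⟩
      have hG' : G = st (pt G hG) := (st_pt G hG).symm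
      rw [hG', hD', hr, hr]
      by_contra hcon
      have h3 := hS (pt G hG) ((hmem _ _).2 (not_lt.1 hcon)) (by
        intro x hx
        rw [st_pt, st_pt]
        exact h1 x hx)
      apply h2
      rw [hG', hD', h3]
    · intro D hD β hβ S
      have hD' : D = st (pt D hD) := (st_pt D hD).symm
      rw [hD', hr] at hβ
      have h1 : pt D hD ∉ Isol (cb (FS P) β) := (mem_cb.1 (ht1 (pt D hD)) β hβ).2
      have h2 : pt D hD ∈ cb (FS P) β := (hmem _ _).2 hβ.le
      rw [mem_isol_iff h2] at h1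
      push Not at h1
      obtain ⟨G, hG, h3, h4⟩ := h1 S
      refine ⟨st G, low_st G, ?_, ?_, ?_⟩
      · intro x hx
        have := h3 x hx
        rw [st_pt] at this
        exact this
      · intro h5
        apply h4
        apply st_inj
        rw [h5, st_pt]
      · rw [hr]
        exact (hmem _ _).1 hG
  have hF : FAC (ge' (P := P)) := by
    intro f
    by_contra hcon
    push Not at hcon
    have hinj : Function.Injective f := by
      intro m n hmn
      by_contra hne
      rcases lt_or_gt_of_ne hne with h | h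
      · exact (hcon m n h).1 (by show f n ≤ f m; rw [hmn])
      · exact (hcon n m h).1 (by show f m ≤ f n; rw [hmn])
    have hanti : IsAntichain (· ≤ ·) (range f) := by
      rintro _ ⟨m, rfl⟩ _ ⟨n, rfl⟩ hne hle
      have hmn : m ≠ n := fun h => hne (by rw [h])
      rcases lt_or_gt_of_ne hmn with h | h
      · exact (hcon m n h).2 hle
      · exact (hcon n m h).1 hle
    exact (Set.infinite_range_of_injective hinj) (hfac _ hanti)
  obtain ⟨a, b, hab⟩ := exists_selector hIR (fun x => le_rfl) hF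
  refine ⟨fun F => {G | (∀ x ∈ a (st F), x ∈ st G) ∧ ∀ x ∈ b (st F), x ∉ st G}, ?_⟩
  have hcl : ∀ F : FS P, IsClopen {G : FS P | (∀ x ∈ a (st F), x ∈ st G) ∧
      ∀ x ∈ b (st F), x ∉ st G} := by
    intro F
    have e : {G : FS P | (∀ x ∈ a (st F), x ∈ st G) ∧ ∀ x ∈ b (st F), x ∉ st G} =
        (⋂ x ∈ a (st F), {G : FS P | G.1 x = true}) ∩ ⋂ x ∈ b (st F), {G : FS P | G.1 x = true}ᶜ := by
      ext G
      simp only [mem_ofPred_eq, mem_inter_iff, mem_iInter, st, mem_compl_iff]
    have hc : ∀ x : P, IsClopen {G : FS P | G.1 x = true} := by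
      intro x
      have hc : Continuous (fun G : FS P => G.1 x) :=
        (continuous_apply x).comp continuous_subtype_val
      exact (isClopen_discrete {true}).preimage hc
    rw [e]
    refine IsClopen.inter ?_ ?_
    · exact isClopen_biInter_finset fun x _ => hc x
    · exact isClopen_biInter_finset fun x _ => (hc x).compl
  have hself : ∀ F : FS P, F ∈ {G : FS P | (∀ x ∈ a (st F), x ∈ st G) ∧
      ∀ x ∈ b (st F), x ∉ st G} := by
    intro F
    obtain ⟨h1, h2, -, -⟩ := hab (st F) (low_st F)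
    exact ⟨h1, h2⟩
  have hlt : ∀ F G : FS P, G ∈ {G : FS P | (∀ x ∈ a (st F), x ∈ st G) ∧
      ∀ x ∈ b (st F), x ∉ st G} → G ≠ F → ht G < ht F := by
    intro F G hG hne
    obtain ⟨-, -, h3, -⟩ := hab (st F) (low_st F)
    have := h3 (st G) (low_st G) hG.1 hG.2 (fun h => hne (st_inj h))
    rwa [hr, hr] at this
  constructor
  · exact hcl
  · exact hself
  · intro F G hG H hH
    obtain ⟨-, -, -, h4⟩ := hab (st F) (low_st F)
    exact h4 (st G) (low_st G) hG.1 hG.2 (st H) (low_st H) hH.1 hH.2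
  · intro F G hG hne hFG
    exact lt_asymm (hlt F G hG hne) (hlt G F hFG (Ne.symm hne))
  · intro F
    refine ⟨ht F, ?_⟩
    rw [cb_open _ (hcl F).isOpen]
    ext G
    constructor
    · rintro ⟨h1, h2⟩
      by_contra hne
      exact absurd (hlt F G h1 hne) (not_lt.2 ((hmem _ _).1 h2))
    · intro h1
      rw [mem_singleton_iff.1 h1]
      exact ⟨hself F, ht1 F⟩

end Main

end Pool.Agent.Q150.FSP
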